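import Pool.Agent.H62.BC.Targets

/-!
# The cycle of length `j`
-/

open TensorProduct Module

namespace Pool.Agent.H14.BC

open Pool.Agent.H62.BC

universe u

section weighted

variable {R : Type*} [Ring R] {q : ℕ} (f : Fin q → Fin q) (X : Fin q → R)

/-- weighted map matrix -/
def wm : Matrix (Fin q) (Fin q) R := fun i l => if l = f i then X i else 0

/-- products along the orbit -/
def wt : ℕ → Fin q → R
  | 0, _ => 1
  | r + 1, i => X i * wt r (f i)

theorem wm_pow (r : ℕ) : ∀ i l, (wm f X ^ r) i l = if l = f^[r] i then wt f X r i else 0 := by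
  induction r with
  | zero =>
    intro i l
    rw [pow_zero, Matrix.one_apply, wt]
    simp only [Function.iterate_zero, id_eq, eq_comm]
  | succ r ih =>
    intro i l
    rw [pow_succ', Matrix.mul_apply, Finset.sum_eq_single (f i)]
    · rw [ih, wm, if_pos rfl, Function.iterate_succ_apply]
      by_cases h : l = f^[r] (f i)
      · rw [if_pos h, if_pos h, wt]
      · rw [if_neg h, if_neg h, mul_zero]
    · intro m _ hm
      rw [wm, if_neg hm, zero_mul]
    · intro h
      exact absurd (Finset.mem_univ _) h

theorem wt_add (a b : ℕ) : ∀ i, wt f X (a + b) i = wt f X a i * wt f X b (f^[a] i) := by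
  induction a with
  | zero => intro i; rw [zero_add, wt, one_mul]; rfl
  | succ a ih =>
    intro i
    rw [show a + 1 + b = (a + b) + 1 by omega, wt, ih, wt, mul_assoc, Function.iterate_succ_apply]

end weighted

theorem nil_comm {R : Type*} [Ring R] {D G : R} {n : ℕ} (h : (D * G) ^ n = 0) :
    (G * D) ^ (n + 1) = 0 := by
  have h1 : ∀ m : ℕ, (G * D) ^ (m + 1) = G * (D * G) ^ m * D := by
    intro m
    induction m with
    | zero => simp
    | succ m ih =>
      rw [pow_succ, ih, pow_succ (D * G) m]
      noncomm_ring
  rw [h1, h, mul_zero, zero_mul]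

theorem pf_A3 : T_A3.{u} := by
  classical
  intro R _ q j D G hj hjq ⟨n, hn⟩
  have hGD := nil_comm hn
  rcases Nat.lt_or_ge j 2 with hj2 | hj2
  · -- j = 1
    obtain rfl : j = 1 := by omega
    have hq : 0 < q := by omega
    refine ⟨Matrix.diagonal (Pi.single ⟨0, hq⟩ (G * D)), Pi.single ⟨0, hq⟩ (G * D), ⟨n + 1, ?_⟩,
      pow_one _, ?_⟩
    · rw [Matrix.diagonal_pow, ← Matrix.diagonal_zero]
      congr 1
      funext i
      rw [Pi.pow_apply]
      by_cases h : i = ⟨0, hq⟩
      · rw [h, Pi.single_eq_same, hGD]
      · rw [Pi.single_eq_of_ne h, zero_pow (Nat.succ_ne_zero _)]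
    · rw [Finset.sum_pi_single']
      simp
  · have hq : 0 < q := by omega
    let f : Fin q → Fin q := fun i =>
      if h : i.1 + 1 < j then ⟨i.1 + 1, by omega⟩ else ⟨0, hq⟩
    let X : Fin q → R := fun i =>
      if i.1 = 0 then D else if i.1 = 1 then G else if i.1 < j then 1 else 0
    have hf1 : ∀ i : Fin q, i.1 + 1 < j → (f i).1 = i.1 + 1 := by
      intro i hi
      simp only [f, dif_pos hi]
    have hf2 : ∀ i : Fin q, ¬ (i.1 + 1 < j) → (f i).1 = 0 := by
      intro i hi
      simp only [f, dif_neg hi]
    -- orbits
    have horb : ∀ r (i : Fin q), i.1 + r < j → (f^[r] i).1 = i.1 + r := by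
      intro r
      induction r with
      | zero => intro i _; rfl
      | succ r ih =>
        intro i hi
        rw [Function.iterate_succ_apply, ih _ (by rw [hf1 i (by omega)]; omega),
          hf1 i (by omega)]
        omega
    have horb2 : ∀ i : Fin q, i.1 < j → f^[j - i.1] i = ⟨0, hq⟩ := by
      intro i hi
      rw [show j - i.1 = (j - i.1 - 1) + 1 by omega, Function.iterate_succ_apply']
      apply Fin.ext
      have h1 := horb (j - i.1 - 1) i (by omega)
      rw [hf2 _ (by omega)]
    have horb3 : ∀ i : Fin q, i.1 < j → f^[j] i = i := by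
      intro i hi
      have h1 : j = i.1 + (j - i.1) := by omega
      rw [h1, Function.iterate_add_apply, horb2 i hi]
      apply Fin.ext
      rw [horb _ _ (by show 0 + i.1 < j; omega)]
      show 0 + i.1 = i.1
      omega
    -- weights
    have hw1 : ∀ r (i : Fin q), 2 ≤ i.1 → i.1 + r ≤ j → wt f X r i = 1 := by
      intro r
      induction r with
      | zero => intro i _ _; rfl
      | succ r ih =>
        intro i hi hir
        have hX : X i = 1 := by
          simp only [X]
          rw [if_neg (by omega), if_neg (by omega), if_pos (by omega)]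
        rw [wt, hX, one_mul]
        by_cases hr : r = 0
        · subst hr
          rfl
        · exact ih _ (by rw [hf1 i (by omega)]; omega) (by rw [hf1 i (by omega)]; omega)
    have hX0 : X ⟨0, hq⟩ = D := if_pos rfl
    have h1q : 1 < q := by omega
    have hX1 : X ⟨1, h1q⟩ = G := by
      simp [X]
    have hf0 : f ⟨0, hq⟩ = ⟨1, h1q⟩ := Fin.ext (hf1 _ (by show 0 + 1 < j; omega))
    have hwf1 : ∀ r, r + 2 ≤ j → wt f X r (f ⟨1, h1q⟩) = 1 := by
      intro r hr
      by_cases hr0 : r = 0
      · subst hr0
        rfl
      · have h2 : (f ⟨1, h1q⟩).1 = 2 := hf1 _ (by show 1 + 1 < j; omega)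
        exact hw1 _ _ (by omega) (by omega)
    have hw0 : ∀ r, r + 2 ≤ j → wt f X (r + 2) ⟨0, hq⟩ = D * G := by
      intro r hr
      rw [wt, wt, hf0, hX0, hX1, hwf1 r hr, mul_one]
    let C : Fin q → R := fun i =>
      (if i.1 < j then D * G else 0) + (if i = ⟨1, h1q⟩ then G * D - D * G else 0)
    have hCval : ∀ i : Fin q, i.1 < j → wt f X j i = C i := by
      intro i hi
      by_cases h0 : i.1 = 0
      · have h0' : i = ⟨0, hq⟩ := Fin.ext h0
        have hne : (⟨0, hq⟩ : Fin q) ≠ ⟨1, h1q⟩ := by
          intro h
          exact absurd (congrArg Fin.val h) (by simp)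
        subst h0'
        simp only [C]
        rw [if_pos hi, if_neg hne, add_zero]
        have h1 := hw0 (j - 2) (by omega)
        rwa [show j - 2 + 2 = j by omega] at h1
      · by_cases h1 : i.1 = 1
        · have h1' : i = ⟨1, h1q⟩ := Fin.ext h1
          subst h1'
          simp only [C]
          rw [if_pos hi, if_true, add_sub_cancel]
          have h2 : j = ((j - 2) + 1) + 1 := by omega
          have h3 := wt_add f X ((j - 2) + 1) 1 ⟨1, h1q⟩
          rw [← h2, wt, hwf1 _ (by omega), hX1, mul_one] at h3
          have h4 := horb2 ⟨1, h1q⟩ hi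
          rw [show j - (⟨1, h1q⟩ : Fin q).1 = (j - 2) + 1 by show j - 1 = _; omega] at h4
          rw [h3, h4, wt, wt, hX0, mul_one]
        · have hne : i ≠ ⟨1, h1q⟩ := by
            intro h
            exact h1 (congrArg Fin.val h)
          simp only [C]
          rw [if_pos hi, if_neg hne, add_zero]
          have h3 := wt_add f X (j - i.1) i.1 i
          rw [show j - i.1 + i.1 = j by omega, hw1 (j - i.1) i (by omega) (by omega), one_mul,
            horb2 i hi] at h3
          rw [h3]
          have h4 := hw0 (i.1 - 2) (by omega)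
          rwa [show i.1 - 2 + 2 = i.1 by omega] at h4
    have hCz : ∀ i : Fin q, ¬ i.1 < j → C i = 0 := by
      intro i hi
      have hne : i ≠ ⟨1, h1q⟩ := by
        intro h
        have h5 : i.1 = 1 := congrArg Fin.val h
        exact hi (by omega)
      simp only [C]
      rw [if_neg hi, if_neg hne, add_zero]
    have hMj : wm f X ^ j = Matrix.diagonal C := by
      ext i l
      rw [wm_pow]
      by_cases hi : i.1 < j
      · rw [horb3 i hi, hCval i hi, Matrix.diagonal_apply]
        simp only [eq_comm]
      · have hX : X i = 0 := by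
          simp only [X]
          rw [if_neg (by omega), if_neg (by omega), if_neg hi]
        have hw : wt f X j i = 0 := by
          rw [show j = (j - 1) + 1 by omega, wt, hX, zero_mul]
        rw [hw, Matrix.diagonal_apply, hCz i hi]
        simp
    have hCn : ∀ i, C i ^ (n + 1) = 0 := by
      intro i
      by_cases hi : i.1 < j
      · by_cases h1 : i = ⟨1, h1q⟩
        · simp only [C]
          rw [if_pos hi, if_pos h1, add_sub_cancel, hGD]
        · simp only [C]
          rw [if_pos hi, if_neg h1, add_zero, pow_succ, hn, zero_mul]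
      · rw [hCz i hi, zero_pow (Nat.succ_ne_zero _)]
    refine ⟨wm f X, C, ⟨j * (n + 1), ?_⟩, hMj, ?_⟩
    · rw [pow_mul, hMj, Matrix.diagonal_pow, ← Matrix.diagonal_zero]
      congr 1
      funext i
      rw [Pi.pow_apply, hCn]
    · simp only [C]
      rw [Finset.sum_add_distrib, Finset.sum_ite_eq' Finset.univ, if_pos (Finset.mem_univ _)]
      have h1 : (∑ i : Fin q, if i.1 < j then D * G else 0) = j • (D * G) := by
        rw [Fin.sum_univ_eq_sum_range (fun i => if i < j then D * G else 0) q,
          ← Finset.sum_filter]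
        have h2 : (Finset.range q).filter (fun i => i < j) = Finset.range j := by
          ext i
          simp only [Finset.mem_filter, Finset.mem_range]
          omega
        rw [h2, Finset.sum_const, Finset.card_range]
      rw [h1]
      obtain ⟨m, rfl⟩ : ∃ m, j = m + 1 := ⟨j - 1, by omega⟩
      rw [Nat.add_sub_cancel, succ_nsmul]
      abel

end Pool.Agent.H14.BC
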