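import Pool.Agent.H62.BC.Targets

/-!
# Filtration of a tensor product for a good twist
-/

open TensorProduct Module

namespace Pool.Agent.H14.BC

open Pool.Agent.H12.Defect Pool.Agent.H15.Defect Pool.Agent.H15.CX Pool.Agent.H62.BC

universe u

section tens

variable {k P E : Type u} [Field k] [CommRing P] [Algebra k P] [AddCommGroup E] [Module k E]
  (ρ : P →ₐ[k] Module.End k E) (L : ℕ) (t : Module.End k E)

theorem map_pow_zero {W : Type u} [AddCommGroup W] [Module k W] (U : Module.End k W)
    (ht : t ^ (L + 1) = 0) :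
    (TensorProduct.map t U : Module.End k (E ⊗[k] W)) ^ (L + 1) = 0 := by
  rw [TensorProduct.map_pow, ht, TensorProduct.map_zero_left]

theorem tenE_tmul {W : Type u} [AddCommGroup W] [Module k W] (p : P) (e : E) (w : W) :
    tenE ρ W p (e ⊗ₜ[k] w) = ρ p e ⊗ₜ[k] w := rfl

theorem tenE_comm {W : Type u} [AddCommGroup W] [Module k W] (U : Module.End k W)
    (hc : ∀ p y, ρ p (t y) = t (ρ p y)) (p : P) (y : E ⊗[k] W) :
    tenE ρ W p (TensorProduct.map t U y) = TensorProduct.map t U (tenE ρ W p y) := by
  induction y using TensorProduct.induction_on with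
  | zero => simp only [map_zero]
  | tmul e w => rw [TensorProduct.map_tmul, tenE_tmul, tenE_tmul, TensorProduct.map_tmul, hc]
  | add y z hy hz => rw [map_add, map_add, map_add, map_add, hy, hz]

theorem lTensor_tenE {W W' : Type u} [AddCommGroup W] [Module k W] [AddCommGroup W']
    [Module k W'] (f : W →ₗ[k] W') (p : P) (y : E ⊗[k] W) :
    LinearMap.lTensor E f (tenE ρ W p y) = tenE ρ W' p (LinearMap.lTensor E f y) := by
  induction y using TensorProduct.induction_on with
  | zero => simp only [map_zero]
  | tmul e w => rw [LinearMap.lTensor_tmul, tenE_tmul, tenE_tmul, LinearMap.lTensor_tmul]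
  | add y z hy hz => rw [map_add, map_add, map_add, map_add, hy, hz]

theorem lTensor_map {W W' : Type u} [AddCommGroup W] [Module k W] [AddCommGroup W']
    [Module k W'] (f : W →ₗ[k] W') (U : Module.End k W) (U' : Module.End k W')
    (hf : ∀ w, f (U w) = U' (f w)) (y : E ⊗[k] W) :
    LinearMap.lTensor E f (TensorProduct.map t U y) =
      TensorProduct.map t U' (LinearMap.lTensor E f y) := by
  induction y using TensorProduct.induction_on with
  | zero => simp only [map_zero]
  | tmul e w =>
    rw [TensorProduct.map_tmul, LinearMap.lTensor_tmul, LinearMap.lTensor_tmul,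
      TensorProduct.map_tmul, hf]
  | add y z hy hz => rw [map_add, map_add, map_add, map_add, hy, hz]

/-- The trivial twist: a power. -/
theorem leM_one {W : Type u} [AddCommGroup W] [Module k W] [Module.Finite k W]
    (ht : t ^ (L + 1) = 0) (hc : ∀ p y, ρ p (t y) = t (ρ p y)) (U : Module.End k W) (hU : U = 1)
    (hT : (TensorProduct.map t U : Module.End k (E ⊗[k] W)) ^ (L + 1) = 0)
    (hcT : ∀ p y, tenE ρ W p (TensorProduct.map t U y) =
      TensorProduct.map t U (tenE ρ W p y)) :
    LeM (act (tenE ρ W) L (TensorProduct.map t U) hT hcT)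
      (powE (act ρ L t ht hc) (Fin (finrank k W))) := by
  classical
  subst hU
  let b := Module.finBasis k W
  let g : Fin (finrank k W) → (E ⊗[k] W →ₗ[k] E) := fun i =>
    (TensorProduct.rid k E).toLinearMap ∘ₗ LinearMap.lTensor E (b.coord i)
  have hg : ∀ i e w, g i (e ⊗ₜ[k] w) = b.coord i w • e := fun i e w => by
    show TensorProduct.rid k E (LinearMap.lTensor E (b.coord i) (e ⊗ₜ[k] w)) = _
    rw [LinearMap.lTensor_tmul, TensorProduct.rid_tmul]
  refine LeM.of_surjective (LinearMap.pi g) ?_ ?_
  · intro f
    refine ⟨∑ j, f j ⊗ₜ[k] b j, ?_⟩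
    funext i
    rw [LinearMap.pi_apply, map_sum]
    rw [Finset.sum_eq_single i]
    · rw [hg, Basis.coord_apply, Basis.repr_self, Finsupp.single_eq_same, one_smul]
    · intro j _ hj
      rw [hg, Basis.coord_apply, Basis.repr_self, Finsupp.single_eq_of_ne hj.symm, zero_smul]
    · intro h
      exact absurd (Finset.mem_univ _) h
  · intro p y
    funext i
    rw [LinearMap.pi_apply, powE_apply, LinearMap.pi_apply]
    refine act_intertwine (g i) ?_ ?_ p y
    · intro p y
      induction y using TensorProduct.induction_on with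
      | zero => simp only [map_zero]
      | tmul e w => rw [tenE_tmul, hg, hg, map_smul]
      | add y z hy hz => rw [map_add, map_add, map_add, map_add, hy, hz]
    · intro y
      induction y using TensorProduct.induction_on with
      | zero => simp only [map_zero]
      | tmul e w => rw [TensorProduct.map_tmul, hg, hg, map_smul]; rfl
      | add y z hy hz => rw [map_add, map_add, map_add, map_add, hy, hz]

theorem leM_nil (ht : t ^ (L + 1) = 0) (hc : ∀ p y, ρ p (t y) = t (ρ p y)) :
    ∀ (r : ℕ) (W : Type u) [AddCommGroup W] [Module k W] [Module.Finite k W]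
      (M : Module.End k W), M ^ r = 0 →
      ∀ (hT : (TensorProduct.map t (1 - M) : Module.End k (E ⊗[k] W)) ^ (L + 1) = 0)
      (hcT : ∀ p y, tenE ρ W p (TensorProduct.map t (1 - M) y) =
        TensorProduct.map t (1 - M) (tenE ρ W p y)),
      LeM (act (tenE ρ W) L (TensorProduct.map t (1 - M)) hT hcT)
        (powE (act ρ L t ht hc) (Fin (finrank k W))) := by
  intro r
  induction r with
  | zero =>
    intro W _ _ _ M hM hT hcT
    refine leM_one ρ L t ht hc (1 - M) ?_ hT hcT
    rw [pow_zero] at hM
    have : M = 0 := by rw [← mul_one M, hM, mul_zero]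
    rw [this, sub_zero]
  | succ r ih =>
    intro W _ _ _ M hM hT hcT
    let W1 : Submodule k W := LinearMap.ker M
    have hW1 : W1 ≤ W1.comap M := by
      intro w hw
      show M (M w) = 0
      rw [LinearMap.mem_ker.mp hw, map_zero]
    let Mb : Module.End k (W ⧸ W1) := W1.mapQ W1 M hW1
    have hMb1 : ∀ w, Mb (W1.mkQ w) = W1.mkQ (M w) := fun w => rfl
    have hMbn : ∀ (n : ℕ) w, (Mb ^ n) (W1.mkQ w) = W1.mkQ ((M ^ n) w) := by
      intro n
      induction n with
      | zero => intro w; rfl
      | succ n ihn =>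
        intro w
        rw [pow_succ, pow_succ, Module.End.mul_apply, Module.End.mul_apply, hMb1, ihn]
    have hMb : Mb ^ r = 0 := by
      apply LinearMap.ext
      intro w
      obtain ⟨w, rfl⟩ := W1.mkQ_surjective w
      rw [hMbn, LinearMap.zero_apply, Submodule.mkQ_apply, Submodule.Quotient.mk_eq_zero]
      show M ((M ^ r) w) = 0
      rw [← Module.End.mul_apply, ← pow_succ', hM]
      rfl
    have h1 := LeM.act_split (ρ := tenE ρ W) (L := L) (T := TensorProduct.map t (1 - M))
      (hT := hT) (hc := hcT)
      (ρ₁ := tenE ρ W1) (ρ₂ := tenE ρ (W ⧸ W1)) (T₁ := TensorProduct.map t 1)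
      (T₂ := TensorProduct.map t (1 - Mb)) (hT₁ := map_pow_zero L t 1 ht)
      (hT₂ := map_pow_zero L t (1 - Mb) ht) (hc₁ := tenE_comm ρ t 1 hc)
      (hc₂ := tenE_comm ρ t (1 - Mb) hc)
      (LinearMap.lTensor E W1.subtype) (LinearMap.lTensor E W1.mkQ)
      (Module.Flat.lTensor_preserves_injective_linearMap _ W1.injective_subtype)
      (LinearMap.lTensor_surjective E W1.mkQ_surjective)
      (by
        intro y
        rw [← LinearMap.comp_apply, ← LinearMap.lTensor_comp]
        have h2 : W1.mkQ.comp W1.subtype = 0 := by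
          apply LinearMap.ext
          intro w
          exact (Submodule.Quotient.mk_eq_zero W1).mpr w.2
        rw [h2, LinearMap.lTensor_zero, LinearMap.zero_apply])
      (lTensor_tenE ρ W1.subtype) (lTensor_tenE ρ W1.mkQ)
      (lTensor_map t W1.subtype 1 (1 - M) (by
        intro w
        show (w : W) = (w : W) - M w
        rw [LinearMap.mem_ker.mp w.2, sub_zero]))
      (lTensor_map t W1.mkQ (1 - M) (1 - Mb) (by
        intro w
        rw [LinearMap.sub_apply, LinearMap.sub_apply, map_sub, hMb1]
        rfl))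
    have h2 := (leM_one ρ L t ht hc (W := W1) 1 rfl (map_pow_zero L t 1 ht)
      (tenE_comm ρ t 1 hc)).prod (ih (W ⧸ W1) Mb hMb (map_pow_zero L t (1 - Mb) ht)
      (tenE_comm ρ t (1 - Mb) hc))
    have h3 := leM_powE_add (act ρ L t ht hc) (finrank k W1) (finrank k (W ⧸ W1))
    have h4 : finrank k W1 + finrank k (W ⧸ W1) = finrank k W := by
      rw [add_comm]
      exact Submodule.finrank_quotient_add_finrank W1
    rw [h4] at h3
    exact (h1.trans h2).trans h3

end tens

theorem pf_GOOD : T_GOOD.{u} := by
  intro k P E W _ _ _ _ _ _ _ _ ρ L t M ht hc hT hcT hM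
  rcases hM with ⟨r, hr⟩ | hM
  · exact (leM_nil ρ L t ht hc r W M hr hT hcT).trans (leM_powE_mono _ (Nat.sub_le _ _))
  · let W1 : Submodule k W := LinearMap.ker M
    have h1 := LeM.act_injective (ρ := tenE ρ W) (ρ' := tenE ρ W1) (L := L)
      (T := TensorProduct.map t (1 - M)) (T' := TensorProduct.map t 1)
      (hT := hT) (hc := hcT) (hT' := map_pow_zero L t 1 ht) (hc' := tenE_comm ρ t 1 hc)
      (LinearMap.lTensor E W1.subtype)
      (Module.Flat.lTensor_preserves_injective_linearMap _ W1.injective_subtype)
      (lTensor_tenE ρ W1.subtype)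
      (lTensor_map t W1.subtype 1 (1 - M) (by
        intro w
        show (w : W) = (w : W) - M w
        rw [LinearMap.mem_ker.mp w.2, sub_zero]))
    have h2 := leM_one ρ L t ht hc (W := W1) 1 rfl (map_pow_zero L t 1 ht) (tenE_comm ρ t 1 hc)
    have h3 : finrank k W - 1 ≤ finrank k W1 := by
      have h4 := LinearMap.finrank_range_add_finrank_ker M
      show finrank k W - 1 ≤ finrank k (LinearMap.ker M)
      omega
    exact (h1.trans h2).trans (leM_powE_mono _ h3)

end Pool.Agent.H14.BC
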