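import Pool.Agent.H62.BC.Targets

/-!
# Bounded catalysis: the local case
-/

open TensorProduct Module

namespace Pool.Agent.H14.BC

open Pool.Agent.H12.Defect Pool.Agent.H15.Defect Pool.Agent.H15.CX Pool.Agent.H62.BC

universe u

section toIdz

variable {k P A : Type u} [Field k] [CommRing P] [Algebra k P] [CommRing A] [Algebra k A]
  (α : A →ₐ[k] k) (q : P →ₐ[k] A) (b : ℕ)

/-- the comparison map -/
noncomputable def toIdz : Idm (powE ((Algebra.lmul k A).comp q) (Fin b)) →ₐ[k]
    Idz (guv α b 0) :=
  AlgHom.ofLinearMap
    { toFun := fun z => ((q z.1, (z.2, 0)) : A × ((Fin b → A) × (Fin 0 → k)))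
      map_add' := by
        intro x y
        apply Idz.ext'
        · exact map_add q _ _
        · exact Prod.ext rfl (Subsingleton.elim _ _)
      map_smul' := by
        intro c x
        apply Idz.ext'
        · exact map_smul q _ _
        · exact Prod.ext rfl (Subsingleton.elim _ _) }
    (by
      apply Idz.ext'
      · exact map_one q
      · rfl)
    (by
      intro x y
      apply Idz.ext'
      · exact map_mul q _ _
      · exact Prod.ext rfl (Subsingleton.elim _ _))

theorem toIdz_surjective (hq : Function.Surjective q) :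
    Function.Surjective (toIdz α q b) := by
  intro z
  obtain ⟨p, hp⟩ := hq z.1
  refine ⟨((p, z.2.1) : P × (Fin b → A)), ?_⟩
  apply Idz.ext'
  · exact hp
  · exact Prod.ext rfl (Subsingleton.elim _ _)

end toIdz

theorem pf_LOC (h : T_GEN.{u}) : T_LOC.{u} := by
  intro k A _ _ _ _ _ α c hc
  obtain ⟨s, hs⟩ : ((RingHom.ker α).restrictScalars k : Submodule k A).FG :=
    IsNoetherian.noetherian _
  have hnil : ∀ x ∈ s.toList, IsNilpotent x := by
    intro x hx
    have h1 : x ∈ (RingHom.ker α).restrictScalars k := by
      rw [← hs]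
      exact Submodule.subset_span (Finset.mem_toList.mp hx)
    have h2 : x ^ c ∈ RingHom.ker α ^ c := Ideal.pow_mem_pow h1 c
    rw [hc, Ideal.mem_bot] at h2
    exact ⟨c, h2⟩
  obtain ⟨P, iP, iA, q, C, hq, hC⟩ := h k A s.toList hnil
  have hker : ((RingHom.ker α).restrictScalars k : Submodule k A) ≤
      Subalgebra.toSubmodule q.range := by
    rw [← hs, Submodule.span_le]
    intro x hx
    exact hq x (Finset.mem_toList.mpr hx)
  have hsur : Function.Surjective q := by
    intro a
    have h1 : a - algebraMap k A (α a) ∈ (RingHom.ker α).restrictScalars k := by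
      show α (a - algebraMap k A (α a)) = 0
      rw [map_sub, AlgHom.commutes]
      exact sub_self _
    have h2 : a - algebraMap k A (α a) ∈ q.range := hker h1
    have h3 : a ∈ q.range := by
      have h4 := q.range.add_mem h2 (q.range.algebraMap_mem (α a))
      rwa [sub_add_cancel] at h4
    exact h3
  refine ⟨C, fun b => ?_⟩
  have h1 := (hC b).of_surjective (toIdz α q b) (toIdz_surjective α q b hsur)
  have h2 := dle_tensor_ZZ (le_refl b) h1
  rwa [mul_comm]

end Pool.Agent.H14.BC
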